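import Pool.Agent.H.MP_cb142b_pr.Proof

/-!
# Spectral-profile time versus maximal expected hitting time

The definitions are in `Pool.Agent.H.MP_cb142b_pr.Defs`.
-/

open MeasureTheory ProbabilityTheory Finset
open scoped ENNReal NNReal
open Pool.Agent.H.MP_cb142b_pr

namespace Pool.Agent.Results.MP_cb142b_pr.SpectralProfileHitting

/-- **Main result.** For every finite connected graph `G`, the maximal expected hitting time of the
continuous-time simple random walk is finite and the spectral-profile time is at most
`12 log 2` times the maximal expected hitting time. -/
theorem result {V : Type*} [Fintype V] [DecidableEq V] [MeasurableSpace V]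
    [DiscreteMeasurableSpace V] (G : SimpleGraph V) [DecidableRel G.Adj] (hc : G.Connected) :
    maxHittingTime G < ⊤ ∧
      spectralProfileTime G ≤ ENNReal.ofReal (12 * Real.log 2) * maxHittingTime G := by
  exact main G hc

/-- The Cayley graph of a group with respect to a generating set is connected. -/
theorem mulCayley_connected {H : Type*} [Group H] (S : Set H) (hS : Subgroup.closure S = ⊤) :
    (SimpleGraph.mulCayley S).Connected := by
  have key : ∀ g h : H, (SimpleGraph.mulCayley S).Reachable h (h * g) := by
    intro g
    have hg : g ∈ Subgroup.closure S := by rw [hS]; trivial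
    induction hg using Subgroup.closure_induction with
    | mem x hx =>
      intro h
      by_cases h1 : h = h * x
      · rw [← h1]
      · refine SimpleGraph.Adj.reachable ?_
        rw [SimpleGraph.mulCayley_adj]
        exact ⟨h1, Or.inl (by simpa using hx)⟩
    | one => intro h; rw [mul_one]
    | mul x y _ _ hx hy =>
      intro h
      rw [← mul_assoc]
      exact (hx h).trans (hy (h * x))
    | inv x _ hx =>
      intro h
      have := (hx (h * x⁻¹)).symm
      rwa [inv_mul_cancel_right] at this
  refine ⟨fun g h => ?_⟩
  have := key (g⁻¹ * h) g
  rwa [mul_inv_cancel_left] at this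

/-- The instance asked about: finite connected Cayley graphs. -/
theorem cayley_case {H : Type*} [Group H] [Fintype H] [DecidableEq H] [MeasurableSpace H]
    [DiscreteMeasurableSpace H] (S : Finset H) (hS : Subgroup.closure (S : Set H) = ⊤)
    [DecidableRel (SimpleGraph.mulCayley (S : Set H)).Adj] :
    maxHittingTime (SimpleGraph.mulCayley (S : Set H)) < ⊤ ∧
      spectralProfileTime (SimpleGraph.mulCayley (S : Set H))
        ≤ ENNReal.ofReal (12 * Real.log 2) * maxHittingTime (SimpleGraph.mulCayley (S : Set H)) :=
  result _ (mulCayley_connected _ hS)

end Pool.Agent.Results.MP_cb142b_pr.SpectralProfileHitting
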